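import Pool.Agent.Helper67.BT.Stmts

open Finset MeasureTheory

namespace Pool.Agent.Helper67.BT

theorem ibd_inner {k : ℕ} (m : Fin k → ℝ) (e x : E k) :
    inner ℝ (dg m e) x = ∑ l, m l * (inner ℝ e (EuclideanSpace.single l (1 : ℝ)) * x l) := by
  rw [PiLp.inner_apply]
  refine Finset.sum_congr rfl fun l _ => ?_
  simp [dg, EuclideanSpace.inner_single_right]
  ring

theorem ibd_line {k : ℕ} (F : E k → ℝ) (F' : ℝ) (l : Fin k) (x : E k)
    (h : HasLineDerivAt ℝ F F' x (EuclideanSpace.single l 1)) :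
    HasLineDerivAt ℝ (fun x => F x * x l) (F' * x l + F x) x (EuclideanSpace.single l 1) := by
  unfold HasLineDerivAt at h ⊢
  have h1 : HasDerivAt (fun t : ℝ => (x + t • EuclideanSpace.single l (1 : ℝ)) l) 1 0 := by
    have h2 : (fun t : ℝ => (x + t • EuclideanSpace.single l (1 : ℝ)) l) = fun t => x l + t := by
      funext t
      simp
    rw [h2]
    exact (hasDerivAt_id (0 : ℝ)).const_add _
  have h3 := h.mul h1
  simp only [zero_smul, add_zero, mul_one] at h3
  exact h3

theorem st_IBD : ST_IBD := by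
  intro n k c p m F F' hp hp3 hF hF' hd
  have hp2 : 2 ≤ p := hp.le
  have h1 : ∀ l : Fin k, av c p (fun x => F x * x l * dV c p (EuclideanSpace.single l 1) x) =
      av c p (fun x => F' l x * x l) + av c p F := by
    intro l
    rw [av_ibp c hp hp3 (F := fun x => F x * x l) (F' := fun x => F' l x * x l + F x)
      (EuclideanSpace.single l 1) (PG_mul hF (PG_coord l))
      (PG_add (PG_mul (hF' l) (PG_coord l)) hF) (fun x => ibd_line F _ l x (hd l x))]
    exact av_add c hp2 hp3 (PG_mul (hF' l) (PG_coord l)) hF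
  have h2 : (fun x => F x * (p * ∑ i, c.s i * ps p (c.z i x) * inner ℝ (dg m (c.e i)) x)) =
      fun x => ∑ l, m l * (F x * x l * dV c p (EuclideanSpace.single l 1) x) := by
    funext x
    have h3 : ∀ i, c.s i * ps p (c.z i x) * inner ℝ (dg m (c.e i)) x =
        ∑ l, m l * x l *
          (c.s i * ps p (c.z i x) * inner ℝ (c.e i) (EuclideanSpace.single l (1 : ℝ))) := by
      intro i
      rw [ibd_inner, Finset.mul_sum]
      refine Finset.sum_congr rfl fun l _ => ?_
      ring
    rw [Finset.sum_congr rfl fun i _ => h3 i, Finset.sum_comm]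
    unfold dV
    rw [Finset.mul_sum, Finset.mul_sum]
    refine Finset.sum_congr rfl fun l _ => ?_
    rw [← Finset.mul_sum]
    ring
  rw [h2, av_sum c hp2 hp3 _ (fun l _ => PG_const_mul _
    (PG_mul (PG_mul hF (PG_coord l)) (PG_dV c hp2 _)))]
  have h4 : (fun x => ∑ l, m l * x l * F' l x) = fun x => ∑ l, m l * (F' l x * x l) := by
    funext x
    refine Finset.sum_congr rfl fun l _ => ?_
    ring
  rw [h4, av_sum c hp2 hp3 _ (fun l _ => PG_const_mul _ (PG_mul (hF' l) (PG_coord l))),
    Finset.sum_mul, ← Finset.sum_add_distrib]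
  refine Finset.sum_congr rfl fun l _ => ?_
  rw [av_const_mul, av_const_mul, h1 l]
  ring

end Pool.Agent.Helper67.BT
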